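import Mathlib.Computability.TuringDegree
import Mathlib.Computability.Primrec.List
import Mathlib.Tactic.FunProp
import Mathlib.Tactic.Linarith
import Mathlib.Data.Nat.Find

/-!
A `fun_prop` calculus for functions (`CI`) and predicates (`CP`) computable relative to a set of
oracles, over Mathlib's `ComputableIn`.
-/

namespace Pool.Agent.Lib.RelComp

open Encodable Part

variable {α β γ σ : Type} [Primcodable α] [Primcodable β] [Primcodable γ] [Primcodable σ]
variable {O : Set (ℕ →. ℕ)}

theorem natRI_prec' {f g h : ℕ →. ℕ} (hf : Nat.RecursiveIn O f) (hg : Nat.RecursiveIn O g)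
    (hh : Nat.RecursiveIn O h) :
    Nat.RecursiveIn O fun a => (f a).bind fun n => n.rec (g a)
      fun y IH => do {let i ← IH; h (Nat.pair a (Nat.pair y i))} :=
  ((Nat.RecursiveIn.prec hg hh).comp
    (Nat.RecursiveIn.pair Nat.Partrec.some.recursiveIn hf)).of_eq fun a =>
    ext fun s => by simp [Seq.seq]

set_option backward.isDefEq.respectTransparency false in
theorem RI_bind {f : α →. β} {g : α → β →. σ} (hf : RecursiveIn O f)
    (hg : RecursiveIn O (fun p : α × β => g p.1 p.2)) :
    RecursiveIn O fun a => (f a).bind (g a) :=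
  (Nat.RecursiveIn.comp hg (Nat.RecursiveIn.pair Nat.Partrec.some.recursiveIn hf)).of_eq fun n => by
    rcases e : decode (α := α) n <;> simp [Seq.seq, e, encodek]

theorem RI_comp {f : β →. σ} {g : α → β} (hf : RecursiveIn O f) (hg : ComputableIn O g) :
    RecursiveIn O fun a => f (g a) :=
  (Nat.RecursiveIn.comp hf hg).of_eq fun n => by
    simp only [map_some, bind_eq_bind]
    rcases e : decode (α := α) n with - | a <;> simp [encodek]

theorem RI_map {f : α →. β} {g : α → β → σ} (hf : RecursiveIn O f)
    (hg : ComputableIn O (fun p : α × β => g p.1 p.2)) :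
    RecursiveIn O fun a => (f a).map (g a) := by
  simpa [bind_some_eq_map] using RI_bind (g := fun a x => Part.some (g a x)) hf hg

theorem RI_nat_rec {f : α → ℕ} {g : α →. σ} {h : α → ℕ × σ →. σ} (hf : ComputableIn O f)
    (hg : RecursiveIn O g) (hh : RecursiveIn O (fun p : α × ℕ × σ => h p.1 p.2)) :
    RecursiveIn O fun a => (f a).rec (g a) fun y IH => IH.bind fun i => h a (y, i) :=
  (natRI_prec' hf hg hh).of_eq fun n => by
    rcases e : decode (α := α) n with - | a
    · simp
    · simp only [coe_some, bind_some, map_some]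
      induction f a <;> simp_all

/-- Total functions computable relative to the oracles in `O`. -/
@[fun_prop] def CI (O : Set (ℕ →. ℕ)) {α σ : Type} [Primcodable α] [Primcodable σ] (f : α → σ) :
    Prop := ComputableIn O f

set_option backward.isDefEq.respectTransparency false in
theorem RI_rfind {p : α → ℕ → Bool} (hp : CI O (fun q : α × ℕ => p q.1 q.2)) :
    RecursiveIn O fun a => Nat.rfind (fun n => (p a n : Part Bool)) := by
  have h1 : ComputableIn O (fun q : α × ℕ => cond (p q.1 q.2) 0 1) :=
    RI_comp (f := fun b : Bool => Part.some (cond b 0 1))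
      (Primrec.dom_bool fun b => cond b 0 1).computableIn hp
  refine (Nat.RecursiveIn.rfind h1).of_eq fun n => ?_
  rcases e : decode (α := α) n with - | a
  · simp [e, Nat.rfind_zero_none]
  · simp only [decode_prod_val, Nat.unpair_pair, e, decode_nat, Option.map_some, Option.bind_some,
      coe_some, bind_some, map_some, encode_nat, map_eq_map]
    congr 1
    funext m
    cases p a m <;> simp

namespace CI

theorem congr {f g : α → σ} (hf : CI O f) (h : ∀ a, f a = g a) : CI O g :=
  (funext h : f = g) ▸ hf

theorem of_primrec {f : α → σ} (hf : Primrec f) : CI O f := hf.computableIn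

theorem of_computable {f : α → σ} (hf : Computable f) : CI O f := hf.computableIn

@[fun_prop] theorem id' : CI O (fun a : α => a) := of_primrec Primrec.id

@[fun_prop] theorem const (b : σ) : CI O (fun _ : α => b) := of_primrec (Primrec.const b)

@[fun_prop] theorem comp (f : β → σ) (g : α → β) (hf : CI O f) (hg : CI O g) :
    CI O (fun a => f (g a)) := RI_comp (f := fun b => Part.some (f b)) hf hg

@[fun_prop] theorem pair {f : α → β} {g : α → γ} (hf : CI O f) (hg : CI O g) :
    CI O (fun a => (f a, g a)) :=
  (Nat.RecursiveIn.pair hf hg).of_eq fun n => by cases decode (α := α) n <;> simp [Seq.seq]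

theorem pr1 {F : β → σ} (hF : Primrec F) {f : α → β} (hf : CI O f) : CI O (fun a => F (f a)) :=
  comp F f (of_primrec hF) hf

theorem pr2 {F : β → γ → σ} (hF : Primrec₂ F) {f : α → β} {g : α → γ} (hf : CI O f)
    (hg : CI O g) : CI O (fun a => F (f a) (g a)) :=
  comp (fun p : β × γ => F p.1 p.2) _ (of_primrec hF) (pair hf hg)

@[fun_prop] theorem fst {f : α → β × γ} (hf : CI O f) : CI O (fun a => (f a).1) :=
  pr1 Primrec.fst hf

@[fun_prop] theorem snd {f : α → β × γ} (hf : CI O f) : CI O (fun a => (f a).2) :=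
  pr1 Primrec.snd hf

theorem subst {O' : Set (ℕ →. ℕ)} {f : α → σ} (hf : CI O f) (h : ∀ g ∈ O, RecursiveIn O' g) :
    CI O' f := RecursiveIn.subst hf h

theorem oracle {g : ℕ → ℕ} (h : (fun n => Part.some (g n) : ℕ →. ℕ) ∈ O) : CI O g :=
  RecursiveIn.oracle _ h

theorem natRec {f : α → ℕ} {g : α → σ} {h : α → ℕ → σ → σ} (hf : CI O f) (hg : CI O g)
    (hh : CI O (fun p : α × ℕ × σ => h p.1 p.2.1 p.2.2)) :
    CI O fun a => Nat.rec (motive := fun _ => σ) (g a) (fun y IH => h a y IH) (f a) :=
  (RI_nat_rec (h := fun a q => Part.some (h a q.1 q.2)) hf hg hh).of_eq fun a => by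
    beta_reduce
    induction f a <;> simp [*]

/-- A sequence given by a recursion. -/
theorem of_rec {F : α → ℕ → σ} {h : α → ℕ → σ → σ} (h0 : CI O (fun a => F a 0))
    (hh : CI O (fun p : α × ℕ × σ => h p.1 p.2.1 p.2.2))
    (hs : ∀ a n, F a (n + 1) = h a n (F a n)) : CI O (fun p : α × ℕ => F p.1 p.2) := by
  have := natRec (O := O) (f := fun p : α × ℕ => p.2) (g := fun p => F p.1 0)
    (h := fun p n x => h p.1 n x) (by fun_prop) (by fun_prop)
    (comp (fun p : α × ℕ × σ => h p.1 p.2.1 p.2.2)
      (fun q : (α × ℕ) × ℕ × σ => (q.1.1, q.2)) hh (by fun_prop))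
  refine this.congr fun p => ?_
  induction p.2 with
  | zero => rfl
  | succ n ih => simp only [hs, ih]

@[fun_prop] theorem encode {f : α → β} (hf : CI O f) : CI O (fun a => Encodable.encode (f a)) :=
  pr1 Primrec.encode hf

@[fun_prop] theorem decode {f : α → ℕ} (hf : CI O f) :
    CI O (fun a => Encodable.decode (α := β) (f a)) := pr1 Primrec.decode hf

@[fun_prop] theorem cond {c : α → Bool} {f g : α → σ} (hc : CI O c) (hf : CI O f) (hg : CI O g) :
    CI O (fun a => cond (c a) (f a) (g a)) :=
  comp (fun p : Bool × σ × σ => _root_.cond p.1 p.2.1 p.2.2) (fun a => (c a, f a, g a))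
    (of_primrec (Primrec.cond Primrec.fst (Primrec.fst.comp Primrec.snd)
      (Primrec.snd.comp Primrec.snd))) (by fun_prop)

@[fun_prop] theorem succ {f : α → ℕ} (hf : CI O f) : CI O (fun a => (f a).succ) :=
  pr1 Primrec.succ hf

@[fun_prop] theorem add {f g : α → ℕ} (hf : CI O f) (hg : CI O g) : CI O (fun a => f a + g a) :=
  pr2 Primrec.nat_add hf hg

@[fun_prop] theorem sub {f g : α → ℕ} (hf : CI O f) (hg : CI O g) : CI O (fun a => f a - g a) :=
  pr2 Primrec.nat_sub hf hg

@[fun_prop] theorem mul {f g : α → ℕ} (hf : CI O f) (hg : CI O g) : CI O (fun a => f a * g a) :=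
  pr2 Primrec.nat_mul hf hg

@[fun_prop] theorem div {f g : α → ℕ} (hf : CI O f) (hg : CI O g) : CI O (fun a => f a / g a) :=
  pr2 Primrec.nat_div hf hg

@[fun_prop] theorem mod {f g : α → ℕ} (hf : CI O f) (hg : CI O g) : CI O (fun a => f a % g a) :=
  pr2 Primrec.nat_mod hf hg

@[fun_prop] theorem max {f g : α → ℕ} (hf : CI O f) (hg : CI O g) :
    CI O (fun a => max (f a) (g a)) := pr2 Primrec.nat_max hf hg

@[fun_prop] theorem min {f g : α → ℕ} (hf : CI O f) (hg : CI O g) :
    CI O (fun a => min (f a) (g a)) := pr2 Primrec.nat_min hf hg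

@[fun_prop] theorem natPair {f g : α → ℕ} (hf : CI O f) (hg : CI O g) :
    CI O (fun a => Nat.pair (f a) (g a)) := pr2 Primrec₂.natPair hf hg

@[fun_prop] theorem unpair {f : α → ℕ} (hf : CI O f) : CI O (fun a => Nat.unpair (f a)) :=
  pr1 Primrec.unpair hf

@[fun_prop] theorem not {f : α → Bool} (hf : CI O f) : CI O (fun a => !f a) :=
  pr1 Primrec.not hf

@[fun_prop] theorem and {f g : α → Bool} (hf : CI O f) (hg : CI O g) :
    CI O (fun a => f a && g a) := pr2 Primrec.and hf hg

@[fun_prop] theorem or {f g : α → Bool} (hf : CI O f) (hg : CI O g) :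
    CI O (fun a => f a || g a) := pr2 Primrec.or hf hg

@[fun_prop] theorem some {f : α → β} (hf : CI O f) : CI O (fun a => Option.some (f a)) :=
  pr1 Primrec.option_some hf

@[fun_prop] theorem optGetD {f : α → Option β} {g : α → β} (hf : CI O f) (hg : CI O g) :
    CI O (fun a => (f a).getD (g a)) := pr2 Primrec.option_getD hf hg

@[fun_prop] theorem isSome {f : α → Option β} (hf : CI O f) : CI O (fun a => (f a).isSome) :=
  pr1 Primrec.option_isSome hf

@[fun_prop] theorem cons {f : α → β} {g : α → List β} (hf : CI O f) (hg : CI O g) :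
    CI O (fun a => f a :: g a) := pr2 Primrec.list_cons hf hg

@[fun_prop] theorem append {f g : α → List β} (hf : CI O f) (hg : CI O g) :
    CI O (fun a => f a ++ g a) := pr2 Primrec.list_append hf hg

@[fun_prop] theorem length {f : α → List β} (hf : CI O f) : CI O (fun a => (f a).length) :=
  pr1 Primrec.list_length hf

@[fun_prop] theorem getElem? {f : α → List β} {g : α → ℕ} (hf : CI O f) (hg : CI O g) :
    CI O (fun a => (f a)[g a]?) := pr2 Primrec.list_getElem? hf hg

@[fun_prop] theorem getD {f : α → List β} {g : α → ℕ} {d : α → β} (hf : CI O f) (hg : CI O g)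
    (hd : CI O d) : CI O (fun a => (f a).getD (g a) (d a)) := by
  simp only [List.getD_eq_getElem?_getD]; fun_prop

@[fun_prop] theorem range {f : α → ℕ} (hf : CI O f) : CI O (fun a => List.range (f a)) :=
  pr1 Primrec.list_range hf

@[fun_prop] theorem flatten {f : α → List (List β)} (hf : CI O f) :
    CI O (fun a => (f a).flatten) := pr1 Primrec.list_flatten hf

theorem mapRange {n : α → ℕ} {g : α → ℕ → σ} (hn : CI O n)
    (hg : CI O (fun p : α × ℕ => g p.1 p.2)) :
    CI O (fun a => (List.range (n a)).map (g a)) := by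
  have := of_rec (O := O) (F := fun a n => (List.range n).map (g a))
    (h := fun a n l => l ++ [g a n]) (by simpa using const _) (by fun_prop)
    (fun a n => by simp [List.range_succ])
  exact comp _ (fun a => (a, n a)) this (by fun_prop)

@[fun_prop] theorem bind {f : α → Option β} {g : α → β → Option σ} (hf : CI O f)
    (hg : CI O (fun p : α × β => g p.1 p.2)) : CI O (fun a => (f a).bind (g a)) := by
  by_cases hb : Nonempty β
  · obtain ⟨b⟩ := hb
    have : CI O (fun a => _root_.cond (f a).isSome (g a ((f a).getD b)) Option.none) := by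
      fun_prop
    exact this.congr fun a => by cases f a <;> rfl
  · refine (const Option.none).congr fun a => ?_
    cases f a with
    | none => rfl
    | some b => exact absurd ⟨b⟩ hb

@[fun_prop] theorem optMap {f : α → Option β} {g : α → β → σ} (hf : CI O f)
    (hg : CI O (fun p : α × β => g p.1 p.2)) : CI O (fun a => (f a).map (g a)) := by
  have : CI O (fun a => (f a).bind (fun b => Option.some (g a b))) := by fun_prop
  exact this.congr fun a => by cases f a <;> rfl

@[fun_prop] theorem map {l : α → List β} {g : α → β → σ} (hl : CI O l)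
    (hg : CI O (fun p : α × β => g p.1 p.2)) : CI O (fun a => (l a).map (g a)) := by
  by_cases hb : Nonempty β
  · obtain ⟨b⟩ := hb
    have := mapRange (O := O) (n := fun a => (l a).length) (g := fun a i => g a ((l a).getD i b))
      (by fun_prop) (by fun_prop)
    refine this.congr fun a => List.ext_getElem (by simp) fun i h1 h2 => ?_
    simp only [List.length_map] at h2
    simp [List.getElem?_eq_getElem h2]
  · refine (const []).congr fun a => ?_
    cases l a with
    | nil => rfl
    | cons b _ => exact absurd ⟨b⟩ hb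

@[fun_prop] theorem flatMap {l : α → List β} {g : α → β → List σ} (hl : CI O l)
    (hg : CI O (fun p : α × β => g p.1 p.2)) : CI O (fun a => (l a).flatMap (g a)) := by
  simp only [List.flatMap_def]; fun_prop

@[fun_prop] theorem take {l : α → List β} {n : α → ℕ} (hn : CI O n) (hl : CI O l) :
    CI O (fun a => (l a).take (n a)) := by
  have : CI O (fun a => (List.range (n a)).flatMap (fun i => ((l a)[i]?.map (fun b => [b])).getD [])) := by
    fun_prop
  refine this.congr fun a => ?_
  induction n a with
  | zero => simp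
  | succ k ih =>
    rw [List.range_succ, List.flatMap_append, ih, List.take_add_one]
    cases h : (l a)[k]? <;> simp [h]

@[fun_prop] theorem getLast? {l : α → List β} (hl : CI O l) : CI O (fun a => (l a).getLast?) := by
  simp only [List.getLast?_eq_getElem?]; fun_prop

theorem all' : Primrec (fun l : List Bool => l.all id) := by
  have := Primrec.list_foldr (α := List Bool) (f := fun l => l) (g := fun _ => true)
    (h := fun _ p => p.1 && p.2) Primrec.id (Primrec.const _)
    (Primrec.and.comp (Primrec.fst.comp Primrec.snd) (Primrec.snd.comp Primrec.snd)).to₂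
  refine this.of_eq fun l => ?_
  induction l with
  | nil => rfl
  | cons b l ih => simp [ih]

@[fun_prop] theorem all {l : α → List β} {g : α → β → Bool} (hl : CI O l)
    (hg : CI O (fun p : α × β => g p.1 p.2)) : CI O (fun a => (l a).all (g a)) :=
  (pr1 all' (map hl hg)).congr fun a => by simp [List.all_map]

end CI

open Classical in
/-- Predicates decidable relative to the oracles in `O`. -/
@[fun_prop] def CP (O : Set (ℕ →. ℕ)) {α : Type} [Primcodable α] (p : α → Prop) : Prop :=
  CI O (fun a => decide (p a))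

namespace CP

variable {p q : α → Prop}

theorem congr (hp : CP O p) (h : ∀ a, p a ↔ q a) : CP O q :=
  (funext fun a => propext (h a) : p = q) ▸ hp

theorem of_ci {f : α → Bool} (hf : CI O f) (h : ∀ a, f a = true ↔ p a) : CP O p :=
  CI.congr hf fun a => by
    by_cases hp : p a
    · simp [hp, (h a).2 hp]
    · simpa [hp] using fun h' => hp ((h a).1 h')

@[fun_prop] theorem const (r : Prop) : CP O (fun _ : α => r) := CI.const _

@[fun_prop] theorem comp (p : β → Prop) (g : α → β) (hp : CP O p) (hg : CI O g) :
    CP O (fun a => p (g a)) := CI.comp _ g hp hg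

theorem subst {O' : Set (ℕ →. ℕ)} (hp : CP O p) (h : ∀ g ∈ O, RecursiveIn O' g) : CP O' p :=
  CI.subst hp h

@[fun_prop] theorem not (hp : CP O p) : CP O (fun a => ¬ p a) :=
  of_ci (CI.not hp) (by simp)

@[fun_prop] theorem and (hp : CP O p) (hq : CP O q) : CP O (fun a => p a ∧ q a) :=
  of_ci (CI.and hp hq) (by simp)

@[fun_prop] theorem or (hp : CP O p) (hq : CP O q) : CP O (fun a => p a ∨ q a) :=
  of_ci (CI.or hp hq) (by simp)

theorem imp (hp : CP O p) (hq : CP O q) : CP O (fun a => p a → q a) :=
  (hp.not.or hq).congr fun a => by tauto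

@[fun_prop] theorem iff (hp : CP O p) (hq : CP O q) : CP O (fun a => p a ↔ q a) :=
  ((hp.imp hq).and (hq.imp hp)).congr fun a => by tauto

theorem of_primrecRel {r : β → γ → Prop} (hr : PrimrecRel r) {f : α → β} {g : α → γ}
    (hf : CI O f) (hg : CI O g) : CP O (fun a => r (f a) (g a)) := by
  classical
  exact of_ci (CI.pr2 hr.decide hf hg) (by simp)

@[fun_prop] theorem eq {f g : α → β} (hf : CI O f) (hg : CI O g) : CP O (fun a => f a = g a) :=
  of_primrecRel Primrec.eq hf hg

@[fun_prop] theorem ne {f g : α → β} (hf : CI O f) (hg : CI O g) : CP O (fun a => f a ≠ g a) :=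
  (eq hf hg).not

@[fun_prop] theorem lt {f g : α → ℕ} (hf : CI O f) (hg : CI O g) : CP O (fun a => f a < g a) :=
  of_primrecRel Primrec.nat_lt hf hg

@[fun_prop] theorem le {f g : α → ℕ} (hf : CI O f) (hg : CI O g) : CP O (fun a => f a ≤ g a) :=
  of_primrecRel Primrec.nat_le hf hg

theorem allMem {l : α → List β} {r : α → β → Prop} (hl : CI O l)
    (hr : CP O (fun x : α × β => r x.1 x.2)) : CP O (fun a => ∀ b ∈ l a, r a b) := by
  classical
  exact of_ci (CI.all (g := fun a b => decide (r a b)) hl (CI.congr hr fun _ => by congr))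
    (by simp)

@[fun_prop] theorem exMem {l : α → List β} {r : α → β → Prop} (hl : CI O l)
    (hr : CP O (fun x : α × β => r x.1 x.2)) : CP O (fun a => ∃ b, b ∈ l a ∧ r a b) :=
  (allMem (r := fun a b => ¬ r a b) hl hr.not).not.congr fun a => by simp

@[fun_prop] theorem exLt {n : α → ℕ} {r : α → ℕ → Prop} (hn : CI O n)
    (hr : CP O (fun x : α × ℕ => r x.1 x.2)) : CP O (fun a => ∃ b, b < n a ∧ r a b) :=
  (exMem (CI.range hn) hr).congr fun a => by simp

@[fun_prop] theorem exLe {n : α → ℕ} {r : α → ℕ → Prop} (hn : CI O n)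
    (hr : CP O (fun x : α × ℕ => r x.1 x.2)) : CP O (fun a => ∃ b, b ≤ n a ∧ r a b) :=
  (exLt (CI.succ hn) hr).congr fun a => by simp [Nat.lt_succ_iff]

@[fun_prop] theorem exEnc {n : α → ℕ} {r : α → β → Prop} (hn : CI O n)
    (hr : CP O (fun x : α × β => r x.1 x.2)) :
    CP O (fun a => ∃ b, Encodable.encode b < n a ∧ r a b) := by
  have h1 : CI O (fun a => (List.range (n a)).flatMap
      (fun i => ((Encodable.decode (α := β) i).map (fun b => [b])).getD [])) := by fun_prop
  have h2 : CP O (fun x : α × β => Encodable.encode x.2 < n x.1 ∧ r x.1 x.2) := by fun_prop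
  refine (exMem (r := fun a b => Encodable.encode b < n a ∧ r a b) h1 h2).congr fun a => ?_
  constructor
  · rintro ⟨b, -, h⟩; exact ⟨b, h⟩
  · rintro ⟨b, h⟩
    refine ⟨b, List.mem_flatMap.2 ⟨Encodable.encode b, by simpa using h.1, by simp⟩, h⟩

@[fun_prop] theorem mem {l : α → List β} {f : α → β} (hl : CI O l) (hf : CI O f) :
    CP O (fun a => f a ∈ l a) :=
  (exMem (r := fun a b => b = f a) hl (by fun_prop)).congr fun a => by simp

@[fun_prop] theorem isPre {l m : α → List β} (hl : CI O l) (hm : CI O m) :
    CP O (fun a => l a <+: m a) := by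
  have : CP O (fun a => l a = (m a).take (l a).length) := by fun_prop
  exact this.congr fun a => List.prefix_iff_eq_take.symm

end CP

theorem forall_nex {ι : Sort*} {p : ι → Prop} : (∀ x, p x) ↔ ¬ ∃ x, ¬ p x := by simp

namespace CI

@[fun_prop] theorem decide {p : α → Prop} {inst : ∀ a, Decidable (p a)} (hp : CP O p) :
    CI O (fun a => @Decidable.decide (p a) (inst a)) := CI.congr hp fun _ => by congr

@[fun_prop] theorem ite {p : α → Prop} {inst : ∀ a, Decidable (p a)} {f g : α → σ} (hp : CP O p)
    (hf : CI O f) (hg : CI O g) : CI O (fun a => @_root_.ite _ (p a) (inst a) (f a) (g a)) :=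
  (cond hp hf hg).congr fun a => by by_cases h : p a <;> simp [h]

/-- Unbounded search. -/
theorem find {p : α → ℕ → Prop} {inst : ∀ a, DecidablePred (p a)}
    (hp : CP O (fun x : α × ℕ => p x.1 x.2)) (h : ∀ a, ∃ n, p a n) :
    CI O (fun a => @Nat.find (p a) (inst a) (h a)) := by
  classical
  refine RecursiveIn.of_eq_tot (RI_rfind (p := fun a n => Decidable.decide (p a n))
    (CI.congr hp fun _ => by congr)) fun a => ?_
  rw [Nat.mem_rfind]
  refine ⟨by simpa using Nat.find_spec (h a), fun {m} hm => by simpa using Nat.find_min (h a) hm⟩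

/-- A function whose graph is decidable is computable. -/
theorem of_graph {f : α → σ} (hp : CP O (fun x : α × σ => f x.1 = x.2)) : CI O f := by
  classical
  have h : ∀ a, ∃ n, ∃ b : σ, Encodable.encode b < n ∧ f a = b := fun a =>
    ⟨_, f a, Nat.lt_succ_self _, rfl⟩
  have h1 := find (O := O) (inst := fun _ => inferInstance)
    (p := fun a n => ∃ b : σ, Encodable.encode b < n ∧ f a = b)
    (CP.exEnc (r := fun (x : α × ℕ) b => f x.1 = b) (by fun_prop)
      (CP.comp (fun x : α × σ => f x.1 = x.2) (fun y : (α × ℕ) × σ => (y.1.1, y.2)) hp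
        (by fun_prop))) h
  have h2 : CI O (fun a => Nat.find (h a) - 1) := by fun_prop
  have h3 : CI O (fun a => Encodable.encode (f a)) := h2.congr fun a => by
    have : Nat.find (h a) = Encodable.encode (f a) + 1 := by
      rw [Nat.find_eq_iff]
      refine ⟨⟨f a, Nat.lt_succ_self _, rfl⟩, ?_⟩
      rintro n hn ⟨b, hb, rfl⟩
      omega
    omega
  exact h3

/-- Choice along a decidable relation. -/
theorem choose {r : α → β → Prop} (hr : CP O (fun x : α × β => r x.1 x.2)) (h : ∀ a, ∃ b, r a b) :
    ∃ f : α → β, CI O f ∧ ∀ a, r a (f a) := by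
  classical
  have h' : ∀ a, ∃ n, ∃ b : β, Encodable.encode b < n + 1 ∧ (Encodable.encode b = n ∧ r a b) :=
    fun a => let ⟨b, hb⟩ := h a; ⟨_, b, Nat.lt_succ_self _, rfl, hb⟩
  have h1 := find (O := O) (inst := fun _ => inferInstance)
    (p := fun a n => ∃ b : β, Encodable.encode b < n + 1 ∧ (Encodable.encode b = n ∧ r a b))
    (by fun_prop) h'
  choose f _ hf1 hf2 using fun a => Nat.find_spec (h' a)
  exact ⟨f, h1.congr fun a => (hf1 a).symm, hf2⟩

end CI

end Pool.Agent.Lib.RelComp
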