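import Pool.Agent.Lib.RelComp.Jump
import Mathlib.Data.Nat.Nth
import Mathlib.Data.Nat.Prime.Infinite

/-!
Further closure properties: counting, enumeration of infinite sets, primes, binary strings.
-/

namespace Pool.Agent.Lib.RelComp

variable {α β : Type} [Primcodable α] [Primcodable β] {O : Set (ℕ →. ℕ)}

theorem CI.of_rec' {F : ℕ → β} {h : ℕ → β → β} (hh : CI O (fun p : ℕ × β => h p.1 p.2))
    (hs : ∀ n, F (n + 1) = h n (F n)) : CI O F := by
  have := CI.of_rec (O := O) (F := fun (_ : Unit) n => F n) (h := fun _ n x => h n x)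
    (by fun_prop) (by fun_prop) (fun _ n => hs n)
  exact CI.comp (fun p : Unit × ℕ => F p.2) (fun n => ((), n)) this (by fun_prop)

theorem ci_count {p : ℕ → Prop} [DecidablePred p] (hp : CP O p) : CI O (Nat.count p) :=
  CI.of_rec' (h := fun n x => x + if p n then 1 else 0) (by fun_prop) (Nat.count_succ p)

theorem ci_nth {p : ℕ → Prop} (hp : CP O p) (hi : {n | p n}.Infinite) : CI O (Nat.nth p) := by
  classical
  have h1 := ci_count hp
  have h2 : CP O (fun x : ℕ × ℕ => p x.2 ∧ Nat.count p x.2 = x.1) := by fun_prop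
  refine CI.of_graph (h2.congr fun x => ⟨fun ⟨h3, h4⟩ => ?_, fun h3 => ?_⟩)
  · rw [← h4, Nat.nth_count h3]
  · rw [← h3]
    exact ⟨Nat.nth_mem_of_infinite hi _, Nat.count_nth_of_infinite hi _⟩

theorem cp_prime : CP O Nat.Prime := by
  have : CP O (fun p : ℕ => 2 ≤ p ∧ ¬ ∃ m, m < p ∧ (p % m = 0 ∧ m ≠ 1)) := by fun_prop
  exact this.congr fun p => by
    simp [Nat.prime_def_lt, Nat.dvd_iff_mod_eq_zero]

/-- All binary strings of a given length. -/
def allLists : ℕ → List (List Bool)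
  | 0 => [[]]
  | n + 1 => (allLists n).map (fun l => true :: l) ++ (allLists n).map (fun l => false :: l)

theorem mem_allLists {n : ℕ} {l : List Bool} : l ∈ allLists n ↔ l.length = n := by
  induction n generalizing l with
  | zero => simp [allLists]
  | succ n ih =>
    cases l with
    | nil => simp [allLists]
    | cons b l => cases b <;> simp [allLists, ih]

@[fun_prop] theorem CI.allLists {f : α → ℕ} (hf : CI O f) : CI O (fun a => allLists (f a)) :=
  CI.comp _ f (CI.of_rec' (F := RelComp.allLists)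
    (h := fun _ L => L.map (fun l => true :: l) ++ L.map (fun l => false :: l)) (by fun_prop)
    fun _ => rfl) hf

/-- Total decoding. -/
def dec (β : Type) [Primcodable β] [Inhabited β] (n : ℕ) : β :=
  (Encodable.decode (α := β) n).getD default

@[simp] theorem dec_encode [Inhabited β] (b : β) : dec β (Encodable.encode b) = b := by
  simp [dec]

@[fun_prop] theorem CI.dec [Inhabited β] {f : α → ℕ} (hf : CI O f) :
    CI O (fun a => dec β (f a)) := by
  unfold RelComp.dec; fun_prop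

/-- `O'` decides the existential questions about `O`. -/
structure Jmp (O O' : Set (ℕ →. ℕ)) : Prop where
  le : ∀ g ∈ O, RecursiveIn O' g
  ex' : ∀ r : ℕ → ℕ → Prop, CP O (fun x : ℕ × ℕ => r x.1 x.2) → CP O' (fun a => ∃ b, r a b)

theorem jmp_jump (X : Set ℕ) : Jmp {chi X} {chi (jump X)} :=
  ⟨fun _ hg => hg ▸ red_iff.2 (cp_jump_self X), fun _ hr => CP.exists_jump hr⟩

theorem Jmp.trans {O₁ O₂ O₃ : Set (ℕ →. ℕ)} (h : Jmp O₁ O₂) (h' : ∀ g ∈ O₂, RecursiveIn O₃ g) :
    Jmp O₁ O₃ :=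
  ⟨fun g hg => (h.le g hg).subst h', fun r hr => (h.ex' r hr).subst h'⟩

theorem Jmp.of_le {O₁ O₂ O₃ : Set (ℕ →. ℕ)} (h : Jmp O₂ O₃) (h' : ∀ g ∈ O₁, RecursiveIn O₂ g) :
    Jmp O₁ O₃ :=
  ⟨fun g hg => (h' g hg).subst h.le, fun r hr => h.ex' r (hr.subst h')⟩

theorem Jmp.ex {O' : Set (ℕ →. ℕ)} (h : Jmp O O') {r : α → β → Prop}
    (hr : CP O (fun x : α × β => r x.1 x.2)) : CP O' (fun a => ∃ b, r a b) := by
  have h1 := h.ex' (fun m n => ∃ a : α, Encodable.encode a < m + 1 ∧ (Encodable.encode a = m ∧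
    ∃ b : β, Encodable.encode b < n ∧ r a b)) (by fun_prop)
  refine (CP.comp _ (fun a : α => Encodable.encode a) h1 (by fun_prop)).congr fun a => ?_
  constructor
  · rintro ⟨n, a', -, h2, b, -, h3⟩
    exact ⟨b, Encodable.encode_injective h2 ▸ h3⟩
  · rintro ⟨b, hb⟩
    exact ⟨_, a, Nat.lt_succ_self _, rfl, b, Nat.lt_succ_self _, hb⟩

theorem Jmp.all {O' : Set (ℕ →. ℕ)} (h : Jmp O O') {r : α → β → Prop}
    (hr : CP O (fun x : α × β => r x.1 x.2)) : CP O' (fun a => ∀ b, r a b) :=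
  (h.ex (r := fun a b => ¬ r a b) hr.not).not.congr fun a => by simp

end Pool.Agent.Lib.RelComp
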