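import Mathlib.Computability.TuringDegree

/-!
Characteristic functions, oracle programs and the Turing jump.
-/

namespace Pool.Agent.Lib.RelComp

open Classical in
/-- The characteristic function of a set of numbers. -/
noncomputable def chi (X : Set ℕ) : ℕ →. ℕ := fun n => Part.some (if n ∈ X then 1 else 0)

/-- Oracle programs: one constructor for each clause of Mathlib's `Nat.RecursiveIn`. -/
inductive OCode : Type
  | zero : OCode
  | succ : OCode
  | left : OCode
  | right : OCode
  | oracle : OCode
  | pair : OCode → OCode → OCode
  | comp : OCode → OCode → OCode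
  | prec : OCode → OCode → OCode
  | rfind : OCode → OCode

/-- The function computed by an oracle program with the oracle `g`. -/
noncomputable def OCode.eval (g : ℕ →. ℕ) (c : OCode) : ℕ →. ℕ :=
  OCode.rec (motive := fun _ => ℕ →. ℕ)
    (fun _ => Part.some 0)
    (fun n => Part.some (n + 1))
    (fun n => Part.some n.unpair.1)
    (fun n => Part.some n.unpair.2)
    g
    (fun _ _ f h n => (f n).bind fun x => (h n).map fun y => Nat.pair x y)
    (fun _ _ f h n => (h n).bind f)
    (fun _ _ f h p => Nat.rec (motive := fun _ => Part ℕ) (f p.unpair.1)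
      (fun y IH => IH.bind fun i => h (Nat.pair p.unpair.1 (Nat.pair y i))) p.unpair.2)
    (fun _ f a => Nat.rfind fun n => (f (Nat.pair a n)).map fun m => decide (m = 0))
    c

/-- The Goedel number of an oracle program. -/
noncomputable def OCode.code (c : OCode) : ℕ :=
  OCode.rec (motive := fun _ => ℕ)
    (Nat.pair 0 0) (Nat.pair 1 0) (Nat.pair 2 0) (Nat.pair 3 0) (Nat.pair 4 0)
    (fun _ _ a b => Nat.pair 5 (Nat.pair a b))
    (fun _ _ a b => Nat.pair 6 (Nat.pair a b))
    (fun _ _ a b => Nat.pair 7 (Nat.pair a b))
    (fun _ a => Nat.pair 8 a)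
    c

/-- The Turing jump: the numbers of the programs that halt on their own number with oracle `X`. -/
def jump (X : Set ℕ) : Set ℕ := {e | ∃ c : OCode, c.code = e ∧ (c.eval (chi X) e).Dom}

end Pool.Agent.Lib.RelComp
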