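import Pool.Agent.Lib.RelComp.Basic
import Pool.Agent.Lib.RelComp.JumpDefs
import Mathlib.Computability.PartrecCode

/-!
Normal form of oracle computations, the jump decides existential questions, the limit lemma.
-/

namespace Pool.Agent.Lib.RelComp

open Encodable
open Nat.Partrec (Code)

variable {α β γ σ : Type} [Primcodable α] [Primcodable β] [Primcodable γ] [Primcodable σ]
variable {O : Set (ℕ →. ℕ)}

/-- Course-of-values recursion. -/
theorem CI.strongRec {F : α → ℕ → σ} {g : α → List σ → σ}
    (hg : CI O (fun p : α × List σ => g p.1 p.2))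
    (H : ∀ a n, g a ((List.range n).map (F a)) = F a n) :
    CI O (fun p : α × ℕ => F p.1 p.2) := by
  have h1 := CI.of_rec (O := O) (F := fun a n => (List.range n).map (F a))
    (h := fun a _ l => l ++ [g a l]) (by simpa using CI.const _) (by fun_prop)
    (fun a n => by simp [List.range_succ, H])
  have h2 : CI O (fun p : α × ℕ => g p.1 ((List.range p.2).map (F p.1))) :=
    CI.comp (fun p : α × List σ => g p.1 p.2)
      (fun p : α × ℕ => (p.1, (List.range p.2).map (F p.1))) hg (CI.pair (by fun_prop) h1)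
  exact h2.congr fun p => H _ _

namespace OCode

variable {g : ℕ →. ℕ}

theorem eval_zero : eval g zero = fun _ => Part.some 0 := rfl
theorem eval_succ : eval g succ = fun n => Part.some (n + 1) := rfl
theorem eval_left : eval g left = fun n => Part.some n.unpair.1 := rfl
theorem eval_right : eval g right = fun n => Part.some n.unpair.2 := rfl
theorem eval_oracle : eval g oracle = g := rfl
theorem eval_pair (c d) : eval g (pair c d) =
    fun n => (eval g c n).bind fun x => (eval g d n).map fun y => Nat.pair x y := rfl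
theorem eval_comp (c d) : eval g (comp c d) = fun n => (eval g d n).bind (eval g c) := rfl
theorem eval_prc (c d) : eval g (prec c d) =
    fun p => Nat.rec (motive := fun _ => Part ℕ) (eval g c p.unpair.1)
      (fun y IH => IH.bind fun i => eval g d (Nat.pair p.unpair.1 (Nat.pair y i))) p.unpair.2 :=
  rfl
theorem eval_rfind (c) : eval g (rfind c) =
    fun a => Nat.rfind fun n => (eval g c (Nat.pair a n)).map fun m => decide (m = 0) := rfl

theorem exists_code {f : ℕ →. ℕ} (hf : Nat.RecursiveIn {g} f) : ∃ c : OCode, c.eval g = f := by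
  induction hf with
  | zero => exact ⟨zero, rfl⟩
  | succ => exact ⟨succ, rfl⟩
  | left => exact ⟨left, rfl⟩
  | right => exact ⟨right, rfl⟩
  | oracle h hh => exact ⟨oracle, hh.symm⟩
  | pair _ _ ih1 ih2 =>
    obtain ⟨c, rfl⟩ := ih1
    obtain ⟨d, rfl⟩ := ih2
    exact ⟨pair c d, by funext n; simp [eval_pair, Seq.seq, Part.bind_map]⟩
  | comp _ _ ih1 ih2 =>
    obtain ⟨c, rfl⟩ := ih1
    obtain ⟨d, rfl⟩ := ih2
    exact ⟨comp c d, rfl⟩
  | prec _ _ ih1 ih2 =>
    obtain ⟨c, rfl⟩ := ih1
    obtain ⟨d, rfl⟩ := ih2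
    exact ⟨prec c d, rfl⟩
  | rfind _ ih =>
    obtain ⟨c, rfl⟩ := ih
    exact ⟨rfind c, rfl⟩

theorem eval_mono {g g' : ℕ →. ℕ} (h : ∀ n y, y ∈ g n → y ∈ g' n) (c : OCode) :
    ∀ n y, y ∈ c.eval g n → y ∈ c.eval g' n := by
  induction c with
  | zero | succ | left | right => exact fun _ _ h => h
  | oracle => exact h
  | pair c d ih1 ih2 =>
    intro n y
    simp only [eval_pair, Part.mem_bind_iff, Part.mem_map_iff]
    rintro ⟨a, ha, b, hb, rfl⟩
    exact ⟨a, ih1 _ _ ha, b, ih2 _ _ hb, rfl⟩
  | comp c d ih1 ih2 =>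
    intro n y
    simp only [eval_comp, Part.mem_bind_iff]
    rintro ⟨a, ha, hb⟩
    exact ⟨a, ih2 _ _ ha, ih1 _ _ hb⟩
  | prec c d ih1 ih2 =>
    intro n
    simp only [eval_prc]
    induction n.unpair.2 with
    | zero => exact fun y hy => ih1 _ _ hy
    | succ k ih =>
      intro y
      simp only [Part.mem_bind_iff]
      rintro ⟨a, ha, hb⟩
      exact ⟨a, ih _ ha, ih2 _ _ hb⟩
  | rfind c ih =>
    intro n y
    simp only [eval_rfind, Nat.mem_rfind, Part.mem_map_iff]
    rintro ⟨⟨a, ha, h1⟩, h2⟩
    refine ⟨⟨a, ih _ _ ha, h1⟩, fun hm => ?_⟩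
    obtain ⟨b, hb, h3⟩ := h2 hm
    exact ⟨b, ih _ _ hb, h3⟩

/-- A finite string as an oracle. -/
def strO (l : List ℕ) : ℕ →. ℕ := fun i => Part.ofOption l[i]?

/-- The first values of a function. -/
def seg (g : ℕ → ℕ) (n : ℕ) : List ℕ := (List.range n).map g

theorem mem_strO_seg {g : ℕ → ℕ} {n i y : ℕ} : y ∈ strO (seg g n) i ↔ i < n ∧ y = g i := by
  by_cases h : i < n <;> simp [strO, seg, h, @eq_comm _ y]

theorem seg_mono {g : ℕ → ℕ} {m n : ℕ} (h : m ≤ n) (c : OCode) {x y : ℕ}
    (hy : y ∈ c.eval (strO (seg g m)) x) : y ∈ c.eval (strO (seg g n)) x :=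
  eval_mono (fun _ _ h' => by
    rw [mem_strO_seg] at h' ⊢; exact ⟨by omega, h'.2⟩) c _ _ hy

theorem eval_use (g : ℕ → ℕ) (c : OCode) :
    ∀ x y, y ∈ c.eval (fun n => Part.some (g n)) x → ∃ n, y ∈ c.eval (strO (seg g n)) x := by
  induction c with
  | zero | succ | left | right => exact fun _ _ h => ⟨0, h⟩
  | oracle =>
    intro x y hy
    exact ⟨x + 1, mem_strO_seg.2 ⟨by omega, by simpa [eval_oracle] using hy⟩⟩
  | pair c d ih1 ih2 =>
    intro n y
    simp only [eval_pair, Part.mem_bind_iff, Part.mem_map_iff]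
    rintro ⟨a, ha, b, hb, rfl⟩
    obtain ⟨k, hk⟩ := ih1 _ _ ha
    obtain ⟨l, hl⟩ := ih2 _ _ hb
    exact ⟨max k l, a, seg_mono (le_max_left _ _) _ hk, b, seg_mono (le_max_right _ _) _ hl, rfl⟩
  | comp c d ih1 ih2 =>
    intro n y
    simp only [eval_comp, Part.mem_bind_iff]
    rintro ⟨a, ha, hb⟩
    obtain ⟨k, hk⟩ := ih2 _ _ ha
    obtain ⟨l, hl⟩ := ih1 _ _ hb
    exact ⟨max k l, a, seg_mono (le_max_left _ _) _ hk, seg_mono (le_max_right _ _) _ hl⟩
  | prec c d ih1 ih2 =>
    intro n
    have key : ∀ k y, y ∈ (prec c d).eval (fun n => Part.some (g n)) (Nat.pair n.unpair.1 k) →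
        ∃ m, y ∈ (prec c d).eval (strO (seg g m)) (Nat.pair n.unpair.1 k) := by
      intro k
      induction k with
      | zero => simpa only [eval_prc, Nat.unpair_pair, Nat.rec_zero] using fun y hy => ih1 _ _ hy
      | succ k ih =>
        intro y hy
        simp only [eval_prc, Nat.unpair_pair, Part.mem_bind_iff] at hy
        obtain ⟨a, ha, hb⟩ := hy
        obtain ⟨l, hl⟩ := ih a (by simpa only [eval_prc, Nat.unpair_pair] using ha)
        obtain ⟨m, hm⟩ := ih2 _ _ hb
        refine ⟨max l m, ?_⟩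
        have h1 := seg_mono (le_max_left l m) _ hl
        simp only [eval_prc, Nat.unpair_pair, Part.mem_bind_iff] at h1 ⊢
        exact ⟨a, h1, seg_mono (le_max_right _ _) _ hm⟩
    simpa only [Nat.pair_unpair] using key n.unpair.2
  | rfind c ih =>
    intro n y
    simp only [eval_rfind, Nat.mem_rfind, Part.mem_map_iff]
    rintro ⟨⟨a, ha, h1⟩, h2⟩
    obtain ⟨k, hk⟩ := ih _ _ ha
    have h3 : ∀ m, m < y → ∃ l, ∃ b ∈ c.eval (strO (seg g l)) (Nat.pair n m),
        decide (b = 0) = false := fun m hm => by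
      obtain ⟨b, hb, h4⟩ := h2 hm
      obtain ⟨l, hl⟩ := ih _ _ hb
      exact ⟨l, b, hl, h4⟩
    choose! l hl using h3
    refine ⟨max k ((Finset.range y).sup l), ⟨a, seg_mono (le_max_left _ _) _ hk, h1⟩,
      fun {m} hm => ?_⟩
    obtain ⟨b, hb, h4⟩ := hl m hm
    exact ⟨b, seg_mono (le_max_of_le_right (Finset.le_sup (Finset.mem_range.2 hm))) _ hb, h4⟩

theorem mem_eval_iff (g : ℕ → ℕ) (c : OCode) (x y : ℕ) :
    y ∈ c.eval (fun n => Part.some (g n)) x ↔ ∃ n, y ∈ c.eval (strO (seg g n)) x :=
  ⟨eval_use g c x y, fun ⟨_, h⟩ => eval_mono (fun _ _ h' => by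
    rw [mem_strO_seg] at h'; simpa using h'.2) c _ _ h⟩

theorem exists_look : ∃ c : Code, ∀ (l : List ℕ) (i : ℕ),
    c.eval (Nat.pair (encode l) i) = strO l i := by
  have h : Partrec (fun p : List ℕ × ℕ => (p.1[p.2]? : Part ℕ)) :=
    Computable.ofOption Primrec.list_getElem?.to_comp
  obtain ⟨c, hc⟩ := Code.exists_code.1 h
  exact ⟨c, fun l i => by simp [hc, strO, Part.map_id']⟩

/-- A code for the table lookup. -/
noncomputable def look : Code := exists_look.choose

/-- `((s, a), n) ↦ (s, (a, n))` -/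
def sh : Code := .pair (.comp .left .left) (.pair (.comp .right .left) .right)

/-- `(s, (a, n)) ↦ ((s, a), n)` -/
def sh' : Code := .pair (.pair .left (.comp .left .right)) (.comp .right .right)

theorem eval_sh (s a n : ℕ) :
    sh.eval (Nat.pair (Nat.pair s a) n) = Part.some (Nat.pair s (Nat.pair a n)) := by
  simp [sh, Code.eval, Seq.seq]

theorem eval_sh' (s n : ℕ) :
    sh'.eval (Nat.pair s n) = Part.some (Nat.pair (Nat.pair s n.unpair.1) n.unpair.2) := by
  simp [sh', Code.eval, Seq.seq]

/-- Translation of an oracle program into an ordinary program with a finite oracle as input. -/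
noncomputable def tr : OCode → Code
  | zero => .zero
  | succ => .comp .succ .right
  | left => .comp .left .right
  | right => .comp .right .right
  | oracle => look
  | pair c d => .pair (tr c) (tr d)
  | comp c d => .comp (tr c) (.pair .left (tr d))
  | prec c d => .comp (.prec (tr c) (.comp (tr d) sh)) sh'
  | rfind c => .comp (.rfind' (.comp (tr c) sh)) (.pair Code.id .zero)

theorem eval_tr (l : List ℕ) (c : OCode) :
    ∀ x, (tr c).eval (Nat.pair (encode l) x) = c.eval (strO l) x := by
  induction c with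
  | zero => intro x; rfl
  | succ => intro x; simp [tr, Code.eval, eval_succ]
  | left => intro x; simp [tr, Code.eval, eval_left]
  | right => intro x; simp [tr, Code.eval, eval_right]
  | oracle => exact exists_look.choose_spec l
  | pair c d ih1 ih2 =>
    intro x; simp [tr, Code.eval, eval_pair, ih1, ih2, Seq.seq, Part.bind_map]
  | comp c d ih1 ih2 =>
    intro x
    simp only [tr, Code.eval, eval_comp, ih2, Seq.seq, PFun.coe_val, Nat.unpair_pair,
      Part.map_eq_map, Part.map_some, Part.bind_eq_bind, Part.bind_some, Part.bind_map, ih1]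
  | prec c d ih1 ih2 =>
    intro x
    simp only [tr, Code.eval, eval_prc, eval_sh', Part.bind_eq_bind, Part.bind_some,
      Nat.unpaired, Nat.unpair_pair, ih1, eval_sh, ih2]
  | rfind c ih =>
    intro x
    have h0 : (Code.pair Code.id Code.zero).eval (Nat.pair (encode l) x) =
        Part.some (Nat.pair (Nat.pair (encode l) x) 0) := by
      simp [Code.eval, Seq.seq]; rfl
    simp only [tr]
    rw [show ∀ a b : Code, (Code.comp a b).eval = fun n => (b.eval n).bind a.eval from
      fun _ _ => rfl]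
    simp only [h0, Part.bind_some]
    simp only [Code.eval, Nat.unpaired, Nat.unpair_pair, add_zero, eval_sh, Part.bind_eq_bind,
      Part.bind_some, ih, eval_rfind, Part.map_eq_map]
    exact Part.map_id' (fun _ => rfl) _

/-- The normal form of oracle computations. -/
theorem mem_eval_iff_evaln (g : ℕ → ℕ) (c : OCode) (x y : ℕ) :
    y ∈ c.eval (fun n => Part.some (g n)) x ↔
      ∃ p : ℕ, Code.evaln p.unpair.2 (tr c) (Nat.pair (encode (seg g p.unpair.1)) x) = some y := by
  rw [mem_eval_iff]
  simp only [← eval_tr, Code.evaln_complete]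
  constructor
  · rintro ⟨n, k, h⟩
    exact ⟨Nat.pair n k, by simpa using h⟩
  · rintro ⟨p, h⟩
    exact ⟨_, _, h⟩

theorem lt_pair {k : ℕ} (hk : 0 < k) (r : ℕ) : r < Nat.pair k r := by
  unfold Nat.pair
  split_ifs with h
  · nlinarith
  · nlinarith

theorem code_zero : code zero = Nat.pair 0 0 := rfl
theorem code_succ : code succ = Nat.pair 1 0 := rfl
theorem code_left : code left = Nat.pair 2 0 := rfl
theorem code_right : code right = Nat.pair 3 0 := rfl
theorem code_oracle : code oracle = Nat.pair 4 0 := rfl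
theorem code_pair (c d) : code (pair c d) = Nat.pair 5 (Nat.pair (code c) (code d)) := rfl
theorem code_comp (c d) : code (comp c d) = Nat.pair 6 (Nat.pair (code c) (code d)) := rfl
theorem code_prec (c d) : code (prec c d) = Nat.pair 7 (Nat.pair (code c) (code d)) := rfl
theorem code_rfind (c) : code (rfind c) = Nat.pair 8 (code c) := rfl

theorem code_inj : ∀ c d : OCode, code c = code d → c = d := by
  intro c
  induction c with
  | zero | succ | left | right | oracle =>
    intro d; cases d <;> simp [code_zero, code_succ, code_left, code_right, code_oracle, code_pair,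
      code_comp, code_prec, code_rfind, Nat.pair_eq_pair]
  | pair c c' ih ih' | comp c c' ih ih' | prec c c' ih ih' =>
    intro d; cases d <;> simp [code_zero, code_succ, code_left, code_right, code_oracle, code_pair,
      code_comp, code_prec, code_rfind, Nat.pair_eq_pair]
    exact fun h1 h2 => ⟨ih _ h1, ih' _ h2⟩
  | rfind c ih =>
    intro d; cases d <;> simp [code_zero, code_succ, code_left, code_right, code_oracle, code_pair,
      code_comp, code_prec, code_rfind, Nat.pair_eq_pair]
    exact ih _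

open Classical in
/-- The translation on numbers of programs. -/
noncomputable def trN (n : ℕ) : Option Code :=
  if h : ∃ c, code c = n then some (tr h.choose) else none

theorem trN_code (c : OCode) : trN (code c) = some (tr c) := by
  have h : ∃ d, code d = code c := ⟨c, rfl⟩
  rw [trN, dif_pos h, code_inj _ _ h.choose_spec]

theorem trN_eq_some {n : ℕ} {d : Code} (h : trN n = some d) : ∃ c, code c = n ∧ d = tr c := by
  by_cases h1 : ∃ c, code c = n
  · obtain ⟨c, rfl⟩ := h1
    exact ⟨c, rfl, by simpa [trN_code, eq_comm] using h⟩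
  · simp [trN, h1] at h

/-- One step of the translation on numbers. -/
noncomputable def trG (l : List (Option Code)) : Option Code :=
  if l.length = Nat.pair 0 0 then some (tr zero)
  else if l.length = Nat.pair 1 0 then some (tr succ)
  else if l.length = Nat.pair 2 0 then some (tr left)
  else if l.length = Nat.pair 3 0 then some (tr right)
  else if l.length = Nat.pair 4 0 then some (tr oracle)
  else if l.length.unpair.1 = 8 then
    (l.getD l.length.unpair.2 none).map fun a =>
      .comp (.rfind' (.comp a sh)) (.pair Code.id .zero)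
  else (l.getD l.length.unpair.2.unpair.1 none).bind fun a =>
    (l.getD l.length.unpair.2.unpair.2 none).bind fun b =>
      if l.length.unpair.1 = 5 then some (.pair a b)
      else if l.length.unpair.1 = 6 then some (.comp a (.pair .left b))
      else if l.length.unpair.1 = 7 then some (.comp (.prec a (.comp b sh)) sh')
      else none

theorem getD_tab (n m : ℕ) :
    ((List.range n).map trN).getD m none = if m < n then trN m else none := by
  by_cases h : m < n <;> simp [h]

theorem trG_spec (n : ℕ) : trG ((List.range n).map trN) = trN n := by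
  have hl : ∀ k c d, 0 < k → code c < Nat.pair k (Nat.pair (code c) (code d)) ∧
      code d < Nat.pair k (Nat.pair (code c) (code d)) := fun k c d hk =>
    ⟨(Nat.left_le_pair _ _).trans_lt (lt_pair hk _), (Nat.right_le_pair _ _).trans_lt (lt_pair hk _)⟩
  by_cases h : ∃ c, code c = n
  · obtain ⟨c, rfl⟩ := h
    rw [trN_code]
    unfold trG
    simp only [getD_tab, List.length_map, List.length_range]
    cases c <;> simp [code_zero, code_succ, code_left, code_right, code_oracle, code_pair,
      code_comp, code_prec, code_rfind, Nat.pair_eq_pair, hl, trN_code, tr, lt_pair]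
  · have h0 : trN n = none := by simp [trN, h]
    rw [h0]
    unfold trG
    simp only [getD_tab, List.length_map, List.length_range]
    have hn := Nat.pair_unpair n
    have hn2 := Nat.pair_unpair n.unpair.2
    rw [if_neg fun h1 => h ⟨zero, h1.symm⟩, if_neg fun h1 => h ⟨succ, h1.symm⟩,
      if_neg fun h1 => h ⟨left, h1.symm⟩, if_neg fun h1 => h ⟨right, h1.symm⟩,
      if_neg fun h1 => h ⟨oracle, h1.symm⟩, Option.eq_none_iff_forall_ne_some]
    intro y hy
    have key : ∀ m a, (if m < n then trN m else none) = some a → ∃ c, code c = m := by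
      intro m a ha
      split_ifs at ha
      obtain ⟨c, hc, -⟩ := trN_eq_some ha
      exact ⟨c, hc⟩
    by_cases h6 : n.unpair.1 = 8
    · rw [if_pos h6, Option.map_eq_some_iff] at hy
      obtain ⟨a, ha, -⟩ := hy
      obtain ⟨c, hc⟩ := key _ _ ha
      exact h ⟨rfind c, by rw [code_rfind, hc, ← h6, hn]⟩
    · rw [if_neg h6] at hy
      simp only [Option.bind_eq_some_iff] at hy
      obtain ⟨a, ha, b, hb, hy⟩ := hy
      obtain ⟨c, hc⟩ := key _ _ ha
      obtain ⟨d, hd⟩ := key _ _ hb
      split_ifs at hy with h7 h8 h9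
      · exact h ⟨pair c d, by rw [code_pair, hc, hd, hn2, ← h7, hn]⟩
      · exact h ⟨comp c d, by rw [code_comp, hc, hd, hn2, ← h8, hn]⟩
      · exact h ⟨prec c d, by rw [code_prec, hc, hd, hn2, ← h9, hn]⟩

theorem ci_trN : CI O trN := by
  have h1 : ∀ {δ : Type} [Primcodable δ] {f g : δ → Code}, CI O f → CI O g →
      CI O (fun a => Code.pair (f a) (g a)) := fun hf hg => CI.pr2 Code.primrec₂_pair hf hg
  have h2 : ∀ {δ : Type} [Primcodable δ] {f g : δ → Code}, CI O f → CI O g →
      CI O (fun a => Code.comp (f a) (g a)) := fun hf hg => CI.pr2 Code.primrec₂_comp hf hg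
  have h3 : ∀ {δ : Type} [Primcodable δ] {f g : δ → Code}, CI O f → CI O g →
      CI O (fun a => Code.prec (f a) (g a)) := fun hf hg => CI.pr2 Code.primrec₂_prec hf hg
  have h4 : ∀ {δ : Type} [Primcodable δ] {f : δ → Code}, CI O f →
      CI O (fun a => Code.rfind' (f a)) := fun hf => CI.pr1 Code.primrec_rfind' hf
  have hG : CI O trG := by
    unfold trG
    refine CI.ite (by fun_prop) (by fun_prop) <| CI.ite (by fun_prop) (by fun_prop) <|
      CI.ite (by fun_prop) (by fun_prop) <| CI.ite (by fun_prop) (by fun_prop) <|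
      CI.ite (by fun_prop) (by fun_prop) <| CI.ite (by fun_prop)
        (CI.optMap (by fun_prop) (h2 (h4 (h2 (by fun_prop) (by fun_prop))) (by fun_prop)))
        (CI.bind (by fun_prop) (CI.bind (by fun_prop) ?_))
    exact CI.ite (by fun_prop) (CI.some (h1 (by fun_prop) (by fun_prop))) <|
      CI.ite (by fun_prop) (CI.some (h2 (by fun_prop) (h1 (by fun_prop) (by fun_prop)))) <|
      CI.ite (by fun_prop) (CI.some (h2 (h3 (by fun_prop) (h2 (by fun_prop) (by fun_prop)))
        (by fun_prop))) (by fun_prop)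
  have := CI.strongRec (O := O) (F := fun (_ : Unit) n => trN n) (g := fun _ l => trG l)
    (by fun_prop) (fun _ n => trG_spec n)
  exact CI.comp (fun p : Unit × ℕ => trN p.2) (fun n => ((), n)) this (by fun_prop)

/-- The program with a constant value. -/
def cst : ℕ → OCode
  | 0 => zero
  | n + 1 => comp succ (cst n)

theorem eval_cst (n x : ℕ) : (cst n).eval g x = Part.some n := by
  induction n with
  | zero => rfl
  | succ n ih => simp [cst, eval_comp, ih, eval_succ]

theorem ci_cst : CI O (fun n => (cst n).code) := by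
  have := CI.of_rec (O := O) (F := fun (_ : Unit) n => (cst n).code)
    (h := fun _ _ x => Nat.pair 6 (Nat.pair (Nat.pair 1 0) x)) (by fun_prop) (by fun_prop)
    (fun _ _ => rfl)
  exact CI.comp (fun p : Unit × ℕ => (cst p.2).code) (fun n => ((), n)) this (by fun_prop)

end OCode

open OCode

@[fun_prop] theorem CI.seg {g : α → ℕ → ℕ} {n : α → ℕ} (hg : CI O (fun p : α × ℕ => g p.1 p.2))
    (hn : CI O n) : CI O (fun a => seg (g a) (n a)) := by
  unfold OCode.seg; fun_prop

@[fun_prop] theorem CI.evaln {k : α → ℕ} {c : α → Code} {n : α → ℕ} (hk : CI O k) (hc : CI O c)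
    (hn : CI O n) : CI O (fun a => Code.evaln (k a) (c a) (n a)) :=
  CI.pr1 Code.primrec_evaln (f := fun a => ((k a, c a), n a)) (by fun_prop)

open Classical in
/-- The characteristic function as a total function. -/
noncomputable def ind (X : Set ℕ) (n : ℕ) : ℕ := if n ∈ X then 1 else 0

theorem chi_eq (X : Set ℕ) : chi X = fun n => Part.some (ind X n) := rfl

theorem ind_eq_one {X : Set ℕ} {n : ℕ} : ind X n = 1 ↔ n ∈ X := by
  unfold ind; split_ifs with h <;> simp [h]

theorem ci_ind {X : Set ℕ} : CI O (ind X) ↔ CP O (fun n => n ∈ X) := by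
  constructor
  · intro h
    exact CP.congr (p := fun n => ind X n = 1) (by fun_prop) fun _ => ind_eq_one
  · intro h
    unfold ind; fun_prop

theorem red_iff {X : Set ℕ} : RecursiveIn O (chi X) ↔ CP O (fun n => n ∈ X) := ci_ind

theorem cp_self (X : Set ℕ) : CP {chi X} (fun n => n ∈ X) :=
  red_iff.1 (RecursiveIn.oracle _ rfl)

theorem CI.trans {X : Set ℕ} {f : α → σ} (hf : CI {chi X} f) (h : CP O (fun n => n ∈ X)) :
    CI O f := hf.subst fun _ hg => hg ▸ red_iff.2 h

theorem CP.trans {X : Set ℕ} {p : α → Prop} (hp : CP {chi X} p) (h : CP O (fun n => n ∈ X)) :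
    CP O p := CI.trans hp h

/-- Normal form for total functions. -/
theorem ci_normal {g : ℕ → ℕ} {f : α → σ} (hf : CI {fun n => Part.some (g n)} f) :
    ∃ c : Code, ∀ a y, y = encode (f a) ↔ ∃ p : ℕ,
      Code.evaln p.unpair.2 c (Nat.pair (encode (OCode.seg g p.unpair.1)) (encode a)) =
        Option.some y := by
  obtain ⟨c, hc⟩ := OCode.exists_code hf
  refine ⟨tr c, fun a y => ?_⟩
  rw [← mem_eval_iff_evaln, hc]
  simp

/-- The jump decides existential questions. -/
theorem CP.exists_jump {X : Set ℕ} {r : α → β → Prop}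
    (hr : CP {chi X} (fun x : α × β => r x.1 x.2)) :
    CP {chi (jump X)} (fun a => ∃ b, r a b) := by
  classical
  have h1 := RI_rfind (O := {chi X}) (p := fun a n => decide (∃ b, encode b < n ∧ r a b))
    (by fun_prop)
  obtain ⟨c, hc⟩ := OCode.exists_code h1
  have h2 : CI {chi (jump X)} (fun a : α => Nat.pair 6 (Nat.pair c.code (cst (encode a)).code)) := by
    have := CI.comp _ (fun a : α => encode a) (ci_cst (O := {chi (jump X)})) (by fun_prop)
    exact CI.natPair (by fun_prop) (CI.natPair (by fun_prop) this)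
  refine (CP.comp _ _ (cp_self (jump X)) h2).congr fun a => ?_
  have h3 : ∀ x, ((OCode.comp c (cst (encode a))).eval (chi X) x).Dom ↔ ∃ b, r a b := by
    intro x
    simp only [eval_comp, eval_cst, Part.bind_some, hc, encodek, Part.coe_some, Part.map_Dom,
      Nat.rfind_dom]
    constructor
    · rintro ⟨n, hn, -⟩
      obtain ⟨b, -, hb⟩ : ∃ b, encode b < n ∧ r a b := by simpa using hn
      exact ⟨b, hb⟩
    · rintro ⟨b, hb⟩
      exact ⟨encode b + 1, by simpa using ⟨b, Nat.lt_succ_self _, hb⟩, fun _ => trivial⟩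
  rw [← code_comp]
  constructor
  · rintro ⟨d, hd, h4⟩
    rw [code_inj _ _ hd] at h4
    exact (h3 _).1 h4
  · exact fun h => ⟨_, rfl, (h3 _).2 h⟩

theorem cp_jump_self (X : Set ℕ) : CP {chi (jump X)} (fun n => n ∈ X) :=
  (CP.exists_jump (r := fun n (_ : ℕ) => n ∈ X)
    (CP.comp _ _ (cp_self X) (by fun_prop))).congr fun _ => by simp

/-- The jump is enumerable relative to the set. -/
theorem jump_sigma (X : Set ℕ) : ∃ q : ℕ → ℕ → Prop,
    CP {chi X} (fun x : ℕ × ℕ => q x.1 x.2) ∧ ∀ n, n ∈ jump X ↔ ∃ s, q n s := by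
  refine ⟨fun n p => ((trN n).bind fun c => Code.evaln p.unpair.2 c
    (Nat.pair (encode (OCode.seg (ind X) p.unpair.1)) n)).isSome = true, ?_, fun n => ?_⟩
  · have h1 := ci_trN (O := {chi X})
    have h2 : CI {chi X} (ind X) := ci_ind.2 (cp_self X)
    fun_prop
  · simp only [Option.isSome_iff_exists, Option.bind_eq_some_iff]
    constructor
    · rintro ⟨c, rfl, h⟩
      obtain ⟨y, hy⟩ := Part.dom_iff_mem.1 h
      obtain ⟨p, hp⟩ := (mem_eval_iff_evaln (ind X) c _ _).1 hy
      exact ⟨p, y, _, trN_code c, hp⟩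
    · rintro ⟨p, y, d, hd, hp⟩
      obtain ⟨c, rfl, rfl⟩ := trN_eq_some hd
      exact ⟨c, rfl, Part.dom_iff_mem.2 ⟨y, (mem_eval_iff_evaln (ind X) c _ _).2 ⟨p, hp⟩⟩⟩

open Classical in
/-- The least number below a bound with a property. -/
noncomputable def least (n : ℕ) (p : ℕ → Prop) : Option ℕ :=
  if h : ∃ i, i < n ∧ p i then some (Nat.find h) else none

theorem least_eq_some {n i : ℕ} {p : ℕ → Prop} :
    least n p = some i ↔ i < n ∧ p i ∧ ∀ j < i, ¬ p j := by
  classical
  unfold least
  split_ifs with h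
  · rw [Option.some.injEq, Nat.find_eq_iff]
    exact ⟨fun ⟨⟨h1, h2⟩, h3⟩ => ⟨h1, h2, fun j hj h4 => h3 j hj ⟨by omega, h4⟩⟩,
      fun ⟨h1, h2, h3⟩ => ⟨⟨h1, h2⟩, fun j hj h4 => h3 j hj h4.2⟩⟩
  · simp only [false_iff]
    exact fun ⟨h1, h2, _⟩ => h ⟨i, h1, h2⟩

theorem least_eq_none {n : ℕ} {p : ℕ → Prop} : least n p = none ↔ ∀ i < n, ¬ p i := by
  unfold least
  split_ifs with h
  · simpa using h
  · simpa using h

theorem exists_least {n i : ℕ} {p : ℕ → Prop} (hi : i < n) (hp : p i) :
    ∃ j ≤ i, least n p = some j := by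
  cases h : least n p with
  | none => exact absurd hp (least_eq_none.1 h i hi)
  | some j => exact ⟨j, not_lt.1 fun hj => (least_eq_some.1 h).2.2 i hj hp, rfl⟩

@[fun_prop] theorem CI.least {n : α → ℕ} {p : α → ℕ → Prop} (hn : CI O n)
    (hp : CP O (fun x : α × ℕ => p x.1 x.2)) : CI O (fun a => least (n a) (p a)) := by
  refine CI.of_graph ?_
  have : CP O (fun x : α × Option ℕ => (x.2 = none ∧ ¬ ∃ i, i < n x.1 ∧ p x.1 i) ∨
      ∃ i, i < n x.1 ∧ (x.2 = Option.some i ∧ p x.1 i ∧ ¬ ∃ j, j < i ∧ p x.1 j)) := by fun_prop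
  refine this.congr fun ⟨a, o⟩ => ?_
  cases o with
  | none => simp [least_eq_none]
  | some i => simp [least_eq_some]

/-- Shoenfield's limit lemma. -/
theorem limit_lemma {X : Set ℕ} {t : α → ℕ} (ht : CI {chi (jump X)} t) :
    ∃ u : α → ℕ → ℕ, CI {chi X} (fun x : α × ℕ => u x.1 x.2) ∧
      ∀ a, ∃ s0, ∀ s, s0 ≤ s → u a s = t a := by
  classical
  obtain ⟨q, hq, hqs⟩ := jump_sigma X
  obtain ⟨c, hc⟩ := ci_normal (g := ind (jump X)) ht
  let gs : ℕ → ℕ → ℕ := fun s n => if ∃ i, i < s ∧ q n i then 1 else 0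
  let e : (ℕ → ℕ) → α → ℕ → Option ℕ := fun g a p =>
    Code.evaln p.unpair.2 c (Nat.pair (encode (OCode.seg g p.unpair.1)) (encode a))
  refine ⟨fun a s => ((least s fun p => (e (gs s) a p).isSome = true).bind (e (gs s) a)).getD 0,
    by simp only [e, gs]; fun_prop, fun a => ?_⟩
  have h1 : ∀ n, ∃ s0, ∀ s, s0 ≤ s → gs s n = ind (jump X) n := by
    intro n
    by_cases hn : n ∈ jump X
    · obtain ⟨i, hi⟩ := (hqs n).1 hn
      exact ⟨i + 1, fun s hs => by
        rw [ind_eq_one.2 hn]; exact if_pos ⟨i, by omega, hi⟩⟩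
    · exact ⟨0, fun s _ => by
        rw [ind, if_neg hn]; exact if_neg fun ⟨i, _, hi⟩ => hn ((hqs n).2 ⟨i, hi⟩)⟩
  choose s0 hs0 using h1
  have h2 : ∃ p, (e (ind (jump X)) a p).isSome = true := by
    obtain ⟨p, hp⟩ := (hc a _).1 rfl
    exact ⟨p, by simp only [e, hp]; rfl⟩
  refine ⟨max (Nat.find h2 + 1) ((Finset.range (Nat.find h2)).sup s0), fun s hs => ?_⟩
  have h3 : ∀ p ≤ Nat.find h2, e (gs s) a p = e (ind (jump X)) a p := by
    intro p hp
    have : OCode.seg (gs s) p.unpair.1 = OCode.seg (ind (jump X)) p.unpair.1 := by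
      refine List.map_congr_left fun n hn => hs0 n s ?_
      have h4 := List.mem_range.1 hn
      have h5 := Nat.unpair_left_le p
      exact (Finset.le_sup (Finset.mem_range.2 (by omega))).trans ((le_max_right _ _).trans hs)
    simp only [e, this]
  have h4 : least s (fun p => (e (gs s) a p).isSome = true) = some (Nat.find h2) := by
    refine least_eq_some.2 ⟨(le_max_left _ _).trans hs, ?_, fun j hj => ?_⟩
    · rw [h3 _ le_rfl]; exact Nat.find_spec h2
    · rw [h3 _ hj.le]; exact Nat.find_min h2 hj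
  obtain ⟨y, hy⟩ := Option.isSome_iff_exists.1 (Nat.find_spec h2)
  have h5 := (hc a y).2 ⟨_, hy⟩
  simp only [h4, Option.bind_some, h3 _ le_rfl, hy, Option.getD_some]
  exact h5

end Pool.Agent.Lib.RelComp
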