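import Pool.Agent.Lib.RelComp.Jump

/-!
A generic finite injury construction: a stack of refutable entries and a growing commitment.
-/

namespace Pool.Agent.Lib.RelComp

variable {E C : Type}

/-- The data of a finite injury construction. -/
structure Inj (E C : Type) where
  rk : E → ℕ
  bad : List E → ℕ → ℕ → Prop
  next : List E → C → ℕ → Option (E × C)
  c0 : C

namespace Inj

variable [Inhabited E] (I : Inj E C)

/-- The entry at position `k` is refuted at stage `s`. -/
def badAt (σ : List E) (k s : ℕ) : Prop := I.bad (σ.take k) (I.rk (σ.getD k default)) s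

/-- Removal of the first refuted entry and of everything above it. -/
noncomputable def cut (s : ℕ) (σ : List E) : List E :=
  σ.take ((least σ.length fun k => I.badAt σ k s).getD σ.length)

/-- One stage. -/
noncomputable def step (s : ℕ) (p : List E × C) : List E × C :=
  ((I.next (I.cut s p.1) p.2 s).map fun y => (I.cut s p.1 ++ [y.1], y.2)).getD (I.cut s p.1, p.2)

/-- The construction. -/
noncomputable def run : ℕ → List E × C
  | 0 => ([], I.c0)
  | s + 1 => I.step s (run s)

/-- No entry is ever refuted. -/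
def TrueS (σ : List E) : Prop := ∀ k < σ.length, ∀ s, ¬ I.badAt σ k s

/-- The entry `x` is put on `σ` at stage `s`. -/
def Push (σ : List E) (x : E) (s : ℕ) : Prop :=
  I.cut s (I.run s).1 = σ ∧ ∃ c, I.next σ (I.run s).2 s = some (x, c)

variable {I}

theorem cut_pre (s : ℕ) (σ : List E) : I.cut s σ <+: σ := List.take_prefix _ _

theorem badAt_pre {σ τ : List E} (h : σ <+: τ) {k : ℕ} (hk : k < σ.length) (s : ℕ) :
    I.badAt τ k s ↔ I.badAt σ k s := by
  obtain ⟨ρ, rfl⟩ := h
  simp only [badAt, List.take_append_of_le_length hk.le, List.getD_eq_getElem?_getD,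
    List.getElem?_append_left hk]

theorem badAt_last (σ : List E) (x : E) (s : ℕ) :
    I.badAt (σ ++ [x]) σ.length s ↔ I.bad σ (I.rk x) s := by
  simp [badAt]

theorem TrueS.pre_cut {σ τ : List E} (hσ : I.TrueS σ) (h : σ <+: τ) (s : ℕ) : σ <+: I.cut s τ := by
  rw [cut, List.prefix_take_iff]
  refine ⟨h, ?_⟩
  cases e : least τ.length fun k => I.badAt τ k s with
  | none => exact h.length_le
  | some k =>
    exact not_lt.1 fun hk => hσ k hk s ((badAt_pre h hk s).1 (least_eq_some.1 e).2.1)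

theorem TrueS.cut_eq {σ τ : List E} {x : E} (hσ : I.TrueS σ) (h : σ ++ [x] <+: τ) {s : ℕ}
    (hx : I.bad σ (I.rk x) s) : I.cut s τ = σ := by
  have h1 : σ <+: τ := (List.prefix_append _ _).trans h
  have h2 : least τ.length (fun k => I.badAt τ k s) = some σ.length :=
    least_eq_some.2 ⟨by simpa [Nat.succ_le_iff] using h.length_le,
      (badAt_pre h (by simp) s).2 ((badAt_last σ x s).2 hx),
      fun j hj h3 => hσ j hj s ((badAt_pre h1 hj s).1 h3)⟩
  rw [cut, h2, Option.getD_some]
  exact (List.prefix_iff_eq_take.1 h1).symm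

theorem TrueS.snoc {σ : List E} {x : E} (hσ : I.TrueS σ) (hx : ∀ s, ¬ I.bad σ (I.rk x) s) :
    I.TrueS (σ ++ [x]) := by
  intro k hk s
  rcases Nat.lt_succ_iff_lt_or_eq.1 (by simpa using hk : k < σ.length + 1) with h | rfl
  · rw [badAt_pre (List.prefix_append _ _) h]; exact hσ k h s
  · rw [badAt_last]; exact hx s

theorem run_succ (s : ℕ) :
    (I.next (I.cut s (I.run s).1) (I.run s).2 s = none ∧
      I.run (s + 1) = (I.cut s (I.run s).1, (I.run s).2)) ∨
    ∃ x c, I.next (I.cut s (I.run s).1) (I.run s).2 s = some (x, c) ∧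
      I.run (s + 1) = (I.cut s (I.run s).1 ++ [x], c) := by
  cases e : I.next (I.cut s (I.run s).1) (I.run s).2 s with
  | none => exact Or.inl ⟨rfl, by simp [run, step, e]⟩
  | some y => exact Or.inr ⟨y.1, y.2, rfl, by simp [run, step, e]⟩

theorem cut_pre_succ (s : ℕ) : I.cut s (I.run s).1 <+: (I.run (s + 1)).1 := by
  rcases run_succ (I := I) s with ⟨-, h⟩ | ⟨x, c, -, h⟩ <;> simp [h]

theorem TrueS.persist {σ : List E} (hσ : I.TrueS σ) {s t : ℕ} (h : σ <+: (I.run s).1)
    (hst : s ≤ t) : σ <+: (I.run t).1 := by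
  induction t, hst using Nat.le_induction with
  | base => exact h
  | succ t _ ih => exact (hσ.pre_cut ih t).trans (cut_pre_succ t)

theorem exists_push {σ : List E} {x : E} {s : ℕ} (h : σ ++ [x] <+: (I.run s).1) :
    ∃ t, I.Push σ x t := by
  induction s with
  | zero => simp [run] at h
  | succ s ih =>
    rcases run_succ (I := I) s with ⟨-, h1⟩ | ⟨y, c, h1, h2⟩
    · rw [h1] at h
      exact ih (h.trans (cut_pre _ _))
    · rw [h2] at h
      rcases List.prefix_concat_iff.1 h with h3 | h3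
      · obtain ⟨rfl, h4⟩ := List.append_inj' h3 rfl
        obtain rfl : x = y := by simpa using h4
        exact ⟨s, rfl, c, h1⟩
      · exact ih (h3.trans (cut_pre _ _))

/-- The stack grows beyond every true initial part. -/
theorem TrueS.extend {σ : List E} (hσ : I.TrueS σ) {s0 : ℕ} (h0 : σ <+: (I.run s0).1)
    (hm : ∀ r s t, s ≤ t → I.bad σ r s → I.bad σ r t) (N : ℕ)
    (hN : ∀ x s, I.Push σ x s → I.rk x ≤ N ∧ ¬ I.bad σ (I.rk x) s)
    (hW : ∀ s, I.cut s (I.run s).1 = σ → ∃ t, s ≤ t ∧ I.next σ (I.run s).2 t ≠ none) :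
    ∃ x s, I.TrueS (σ ++ [x]) ∧ σ ++ [x] <+: (I.run s).1 := by
  by_contra hc
  have h1 : ∀ x s, σ ++ [x] <+: (I.run s).1 → ∃ t, I.bad σ (I.rk x) t := fun x s hx => by
    by_contra h2
    exact hc ⟨x, s, hσ.snoc fun t ht => h2 ⟨t, ht⟩, hx⟩
  have h2 : ∀ r, ∃ s, ∀ t, I.bad σ r t → I.bad σ r s := fun r => by
    by_cases h3 : ∃ t, I.bad σ r t
    · obtain ⟨t, ht⟩ := h3
      exact ⟨t, fun _ _ => ht⟩
    · exact ⟨0, fun t ht => absurd ⟨t, ht⟩ h3⟩
  choose b hb using h2
  obtain ⟨s1, hs0, hs1⟩ : ∃ s1, s0 ≤ s1 ∧ ∀ r ≤ N, b r ≤ s1 :=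
    ⟨max s0 ((Finset.range (N + 1)).sup b), le_max_left _ _, fun r hr =>
      le_max_of_le_right (Finset.le_sup (f := b) (Finset.mem_range.2 (by omega)))⟩
  have h3 : ∀ s, s1 ≤ s → I.cut s (I.run s).1 = σ → I.next σ (I.run s).2 s = none := by
    intro s hs e
    rcases run_succ (I := I) s with ⟨h4, -⟩ | ⟨x, c, h4, h5⟩
    · rwa [e] at h4
    · rw [e] at h4 h5
      obtain ⟨h6, h7⟩ := hN x s ⟨e, c, h4⟩
      obtain ⟨t, ht⟩ := h1 x (s + 1) (by simp [h5])
      exact absurd (hm _ _ _ ((hs1 _ h6).trans hs) (hb _ _ ht)) h7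
  obtain ⟨s, hs, e⟩ : ∃ s, s1 ≤ s ∧ I.cut s (I.run s).1 = σ := by
    by_contra h4
    have h5 := hσ.pre_cut (hσ.persist h0 hs0) s1
    obtain ⟨ρ, hρ⟩ := h5
    cases ρ with
    | nil => exact h4 ⟨s1, le_rfl, by simpa using hρ.symm⟩
    | cons x ρ =>
      have h6 : ∀ t, s1 ≤ t → σ ++ [x] <+: (I.run t).1 := by
        intro t ht
        induction t, ht using Nat.le_induction with
        | base => exact (show σ ++ [x] <+: _ from ⟨ρ, by simpa using hρ⟩).trans (cut_pre _ _)
        | succ t ht ih =>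
          refine List.IsPrefix.trans ?_ (cut_pre_succ t)
          have h7 := hσ.pre_cut ((List.prefix_append _ _).trans ih) t
          refine List.prefix_of_prefix_length_le ih (cut_pre _ _) ?_
          have h8 : σ.length ≠ (I.cut t (I.run t).1).length := fun e =>
            h4 ⟨t, ht, (h7.eq_of_length e).symm⟩
          have := h7.length_le
          simp only [List.length_append, List.length_singleton]
          omega
      obtain ⟨t, ht⟩ := h1 x s1 (h6 _ le_rfl)
      exact h4 ⟨max s1 t, le_max_left _ _,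
        hσ.cut_eq (h6 _ (le_max_left _ _)) (hm _ _ _ (le_max_right _ _) ht)⟩
  have h4 : ∀ t, s ≤ t → I.cut t (I.run t).1 = σ ∧ (I.run t).2 = (I.run s).2 := by
    intro t ht
    induction t, ht using Nat.le_induction with
    | base => exact ⟨e, rfl⟩
    | succ t ht ih =>
      rcases run_succ (I := I) t with ⟨-, h5⟩ | ⟨x, c, h5, -⟩
      · rw [h5, ih.1]
        exact ⟨(cut_pre _ _).eq_of_length_le (hσ.pre_cut List.prefix_rfl _).length_le, ih.2⟩
      · rw [ih.1, h3 t (hs.trans ht) ih.1] at h5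
        cases h5
  obtain ⟨t, ht, h5⟩ := hW s e
  exact h5 ((h4 t ht).2 ▸ h3 t (hs.trans ht) (h4 t ht).1)

theorem ci_run [Primcodable E] [Primcodable C] {O : Set (ℕ →. ℕ)} (h1 : CI O I.rk)
    (h2 : CP O (fun p : List E × ℕ × ℕ => I.bad p.1 p.2.1 p.2.2))
    (h3 : CI O (fun p : List E × C × ℕ => I.next p.1 p.2.1 p.2.2)) : CI O I.run := by
  have h4 : CI O (fun p : ℕ × List E => I.cut p.1 p.2) := by
    unfold cut badAt
    generalize I.rk = rk at *
    generalize I.bad = bad at *
    fun_prop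
  have h6 : CI O (fun p : ℕ × List E × C => I.step p.1 p.2) := by
    unfold step
    generalize I.cut = cu at *
    generalize I.next = nx at *
    fun_prop
  have := CI.of_rec (O := O) (F := fun (_ : Unit) n => I.run n) (h := fun _ n x => I.step n x)
    (by fun_prop) (by generalize I.step = st at *; fun_prop)
    (fun _ _ => rfl)
  exact CI.comp (fun p : Unit × ℕ => I.run p.2) (fun n => ((), n)) this (by fun_prop)

end Inj

end Pool.Agent.Lib.RelComp
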